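import Pool.Agent.N798.S2.Stm

/-!
Project S2 (helper798), part PHP: the phases log P_v(p) at primes (helper617), after helper99's
part PH of project S.
-/

set_option autoImplicit false

namespace Pool.Agent.N617.S2

open Finset MeasureTheory Filter Topology
open Pool.Agent.H376R2.MR (er)
open Pool.Agent.N798.S2

theorem norm_er (τ x : ℝ) : ‖er τ x‖ = 1 := by
  unfold er
  exact Complex.norm_exp_ofReal_mul_I _

theorem er_add (x y : ℝ) : er 1 (x + y) = er 1 x * er 1 y := by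
  unfold er
  rw [← Complex.exp_add]
  congr 1
  push_cast
  ring

theorem er_sub_le (x y : ℝ) : ‖er 1 x - er 1 y‖ ≤ |x - y| := by
  have h : er 1 x = er 1 y * er 1 (x - y) := by
    rw [← er_add]; congr 1; ring
  rw [h, show er 1 y * er 1 (x - y) - er 1 y = er 1 y * (er 1 (x - y) - 1) by ring, norm_mul,
    norm_er, one_mul]
  unfold er
  rw [one_mul, mul_comm]
  exact Real.norm_exp_I_mul_ofReal_sub_one_le

/-- The weight. -/
private noncomputable def wt (n : ℕ) : ℂ := if n.Prime then (1 : ℂ) else 0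

private theorem norm_wt (n : ℕ) : ‖wt n‖ ≤ 1 := by
  unfold wt
  split <;> simp

theorem php (h1 : S_PB) (h2 : Pool.Agent.N798.S.S_LP) : S_PHP := by
  classical
  intro k P hlc hdeg
  refine ⟨fun A => ?_⟩
  choose c Cv n0 hn0 hCv hP using fun v => h2 (P v) (hlc v) (A + 2)
  set d : ℕ → ℝ := fun v => ((P v).natDegree : ℝ) with hd
  -- the weights
  set w : ℕ → ℕ → ℕ → ℝ := fun N i v =>
    match i with
    | 0 => d v
    | i + 1 => if h : i < A + 2 then c v ⟨i, h⟩ / (N : ℝ) ^ (i + 1) else 0 with hw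
  have hw0 : ∀ N v, w N 0 v = d v := fun N v => rfl
  have hws : ∀ N v (i : Fin (A + 2)), w N ((i : ℕ) + 1) v = c v i / (N : ℝ) ^ ((i : ℕ) + 1) := by
    intro N v i
    simp only [hw, i.isLt, dif_pos]
  set Bv : ℕ → ℝ := fun v => d v + ∑ i, |c v i| with hBv
  have hd0 : ∀ v, 0 ≤ d v := fun v => Nat.cast_nonneg _
  have hBv0 : ∀ v, 0 ≤ Bv v := fun v => add_nonneg (hd0 v) (Finset.sum_nonneg fun i _ => abs_nonneg _)
  set B : ℝ := ∑ v ∈ range k, Bv v with hB
  have hB0 : 0 ≤ B := Finset.sum_nonneg fun v _ => hBv0 v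
  have hBvB : ∀ v < k, Bv v ≤ B := fun v hv =>
    Finset.single_le_sum (f := Bv) (fun v _ => hBv0 v) (Finset.mem_range.2 hv)
  have hwB : ∀ N i v, 1 ≤ N → |w N i v| ≤ Bv v := by
    intro N i v hN
    have hN1 : (1 : ℝ) ≤ N := by exact_mod_cast hN
    rcases i with _ | i
    · rw [hw0 N v, abs_of_nonneg (hd0 v)]
      exact le_add_of_nonneg_right (Finset.sum_nonneg fun i _ => abs_nonneg _)
    · by_cases hi : i < A + 2
      · have := hws N v ⟨i, hi⟩
        simp only at this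
        rw [this, abs_div, abs_of_nonneg (by positivity : (0 : ℝ) ≤ (N : ℝ) ^ (i + 1))]
        have h3 : |c v ⟨i, hi⟩| ≤ ∑ i, |c v i| :=
          Finset.single_le_sum (f := fun i => |c v i|) (fun i _ => abs_nonneg _) (Finset.mem_univ _)
        calc |c v ⟨i, hi⟩| / (N : ℝ) ^ (i + 1) ≤ |c v ⟨i, hi⟩| :=
              div_le_self (abs_nonneg _) (one_le_pow₀ hN1)
          _ ≤ Bv v := h3.trans (le_add_of_nonneg_left (hd0 v))
      · have : w N (i + 1) v = 0 := by simp only [hw, hi, dif_neg, not_false_eq_true]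
        rw [this, abs_zero]
        exact hBv0 v
  set N0 : ℕ := max 2 (max (∑ v ∈ range k, n0 v) ⌈B⌉₊) with hN0
  refine ⟨A + 2, w, B, N0, le_max_left _ _, ?_, hw0, ?_⟩
  · intro N i v hN hv
    have : 1 ≤ N := le_trans (le_trans (by norm_num) (le_max_left _ _)) hN
    exact (hwB N i v this).trans (hBvB v hv)
  intro K
  obtain ⟨K', C, hC, hBL⟩ := h1 (A + 2) (A + 1) K
  set Cs : ℝ := ∑ v ∈ range k, Cv v with hCs
  have hCs0 : 0 ≤ Cs := Finset.sum_nonneg fun v _ => hCv v
  refine ⟨K', C + Cs * (Nat.factorial K : ℝ), by positivity, ?_⟩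
  intro N N' θ hN hNN' hN'2 hθ hbig
  have hN2 : 2 ≤ N := le_trans (le_max_left _ _) hN
  have hNn0 : ∀ v < k, n0 v ≤ N := by
    intro v hv
    refine le_trans ?_ (le_trans (le_max_left _ _) (le_trans (le_max_right _ _) hN))
    exact Finset.single_le_sum (f := n0) (fun v _ => Nat.zero_le _) (Finset.mem_range.2 hv)
  have hNB : B ≤ N := by
    have h3 : ⌈B⌉₊ ≤ N := le_trans (le_max_right _ _) (le_trans (le_max_right _ _) hN)
    exact (Nat.le_ceil B).trans (by exact_mod_cast h3)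
  have hNr : (2 : ℝ) ≤ N := by exact_mod_cast hN2
  have hNpos : (0 : ℝ) < N := by linarith
  have hlog : 0 < Real.log N := Real.log_pos (by linarith)
  -- bound for sums
  have hsum : ∀ a : ℕ → ℝ, (∀ v < k, |a v| ≤ Bv v) →
      |∑ v ∈ range k, a v * θ v| ≤ (N : ℝ) ^ (A + 1) := by
    intro a ha
    calc |∑ v ∈ range k, a v * θ v| ≤ ∑ v ∈ range k, |a v * θ v| := Finset.abs_sum_le_sum_abs _ _
      _ ≤ ∑ v ∈ range k, Bv v * (N : ℝ) ^ A := by
          refine Finset.sum_le_sum fun v hv => ?_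
          rw [Finset.mem_range] at hv
          rw [abs_mul]
          exact mul_le_mul (ha v hv) (hθ v hv) (abs_nonneg _) (hBv0 v)
      _ = B * (N : ℝ) ^ A := by rw [← Finset.sum_mul]
      _ ≤ N * (N : ℝ) ^ A := mul_le_mul_of_nonneg_right hNB (by positivity)
      _ = (N : ℝ) ^ (A + 1) := by rw [pow_succ]; ring
  set τ : ℝ := ∑ v ∈ range k, d v * θ v with hτ
  set g : Fin (A + 2) → ℝ := fun i => ∑ v ∈ range k, c v i * θ v with hg
  set κ : ℝ := ∑ v ∈ range k, θ v * Real.log (P v).leadingCoeff with hκ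
  have hN1 : 1 ≤ N := by omega
  have hgw : ∀ i : Fin (A + 2), |g i| / (N : ℝ) ^ ((i : ℕ) + 1) =
      |∑ v ∈ range k, w N ((i : ℕ) + 1) v * θ v| := by
    intro i
    have h3 : ∑ v ∈ range k, w N ((i : ℕ) + 1) v * θ v = g i / (N : ℝ) ^ ((i : ℕ) + 1) := by
      simp only [hg]
      rw [Finset.sum_div]
      refine Finset.sum_congr rfl fun v _ => ?_
      rw [hws]; ring
    rw [h3, abs_div, abs_of_nonneg (by positivity : (0 : ℝ) ≤ (N : ℝ) ^ ((i : ℕ) + 1))]
  have hτ1 : |τ| ≤ (N : ℝ) ^ (A + 1) := by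
    have := hsum (fun v => w N 0 v) (fun v _ => hwB N 0 v hN1)
    simpa only [hw0] using this
  have hg1 : ∀ i : Fin (A + 2), |g i| / (N : ℝ) ^ ((i : ℕ) + 1) ≤ (N : ℝ) ^ (A + 1) := by
    intro i
    rw [hgw]
    exact hsum (fun v => w N ((i : ℕ) + 1) v) (fun v _ => hwB N ((i : ℕ) + 1) v hN1)
  have hor : (Real.log N) ^ K' ≤ |τ| ∨
      ∃ i : Fin (A + 2), (Real.log N) ^ K' ≤ |g i| / (N : ℝ) ^ ((i : ℕ) + 1) := by
    obtain ⟨i, hi, hi2⟩ := hbig
    rcases i with _ | i
    · left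
      simpa only [hw0] using hi2
    · right
      have hi3 : i < A + 2 := by omega
      refine ⟨⟨i, hi3⟩, ?_⟩
      rw [hgw]
      exact hi2
  have hmain := hBL N N' τ g hN2 hNN' hN'2 hτ1 hg1 hor
  -- comparison
  set Q : ℕ → ℝ := fun n => τ * Real.log n + ∑ i, g i / (n : ℝ) ^ ((i : ℕ) + 1) with hQ
  have hcomp : ∀ n ∈ Ioc N N', |∑ v ∈ range k, θ v * Real.log ((P v).eval (n : ℝ)) -
      (κ + Q n)| ≤ Cs / N ^ 3 := by
    intro n hn
    rw [Finset.mem_Ioc] at hn
    have hnN : (N : ℝ) ≤ n := by exact_mod_cast hn.1.le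
    have hnpos : (0 : ℝ) < n := lt_of_lt_of_le hNpos hnN
    have e1 : κ + Q n = ∑ v ∈ range k, θ v * ((P v).natDegree * Real.log n +
        Real.log (P v).leadingCoeff + ∑ i, c v i / (n : ℝ) ^ ((i : ℕ) + 1)) := by
      simp only [hκ, hQ, hτ, hg, hd]
      have e2 : ∑ i : Fin (A + 2), (∑ v ∈ range k, c v i * θ v) / (n : ℝ) ^ ((i : ℕ) + 1) =
          ∑ v ∈ range k, θ v * ∑ i, c v i / (n : ℝ) ^ ((i : ℕ) + 1) := by
        simp only [Finset.sum_div, Finset.mul_sum]
        rw [Finset.sum_comm]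
        refine Finset.sum_congr rfl fun v _ => Finset.sum_congr rfl fun i _ => ?_
        ring
      rw [e2, Finset.sum_mul, ← Finset.sum_add_distrib, ← Finset.sum_add_distrib]
      refine Finset.sum_congr rfl fun v _ => ?_
      ring
    rw [e1, ← Finset.sum_sub_distrib]
    calc |∑ v ∈ range k, (θ v * Real.log ((P v).eval (n : ℝ)) - θ v *
          ((P v).natDegree * Real.log n + Real.log (P v).leadingCoeff +
            ∑ i, c v i / (n : ℝ) ^ ((i : ℕ) + 1)))|
        ≤ ∑ v ∈ range k, |θ v * Real.log ((P v).eval (n : ℝ)) - θ v *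
          ((P v).natDegree * Real.log n + Real.log (P v).leadingCoeff +
            ∑ i, c v i / (n : ℝ) ^ ((i : ℕ) + 1))| := Finset.abs_sum_le_sum_abs _ _
      _ ≤ ∑ v ∈ range k, (N : ℝ) ^ A * (Cv v / (N : ℝ) ^ (A + 3)) := by
          refine Finset.sum_le_sum fun v hv => ?_
          rw [Finset.mem_range] at hv
          rw [← mul_sub, abs_mul]
          refine mul_le_mul (hθ v hv) ?_ (abs_nonneg _) (by positivity)
          have h3 := (hP v n ((hNn0 v hv).trans hn.1.le)).2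
          refine h3.trans ?_
          apply div_le_div_of_nonneg_left (hCv v) (by positivity)
          exact pow_le_pow_left₀ hNpos.le hnN _
      _ = Cs / N ^ 3 := by
          rw [← Finset.mul_sum, ← Finset.sum_div, pow_add]
          field_simp
          rfl
  have hdiff : ‖∑ n ∈ Ioc N N', wt n * er 1 (∑ v ∈ range k, θ v * Real.log ((P v).eval (n : ℝ))) -
      ∑ n ∈ Ioc N N', wt n * er 1 (κ + Q n)‖ ≤ Cs * (Nat.factorial K : ℝ) * N / (Real.log N) ^ K := by
    rw [← Finset.sum_sub_distrib]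
    calc ‖∑ n ∈ Ioc N N', (wt n * er 1 (∑ v ∈ range k, θ v * Real.log ((P v).eval (n : ℝ))) -
          wt n * er 1 (κ + Q n))‖ ≤ ∑ n ∈ Ioc N N', Cs / (N : ℝ) ^ 3 := by
          refine norm_sum_le_of_le _ fun n hn => ?_
          rw [← mul_sub, norm_mul]
          calc ‖wt n‖ * ‖er 1 (∑ v ∈ range k, θ v * Real.log ((P v).eval (n : ℝ))) -
              er 1 (κ + Q n)‖ ≤ 1 * ‖er 1 (∑ v ∈ range k, θ v * Real.log ((P v).eval (n : ℝ))) -
              er 1 (κ + Q n)‖ := mul_le_mul_of_nonneg_right (norm_wt n) (norm_nonneg _)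
            _ ≤ _ := by rw [one_mul]; exact (er_sub_le _ _).trans (hcomp n hn)
      _ = ((N' - N : ℕ) : ℝ) * (Cs / (N : ℝ) ^ 3) := by
          rw [Finset.sum_const, Nat.card_Ioc, nsmul_eq_mul]
      _ ≤ N * (Cs / (N : ℝ) ^ 3) := by
          refine mul_le_mul_of_nonneg_right ?_ (by positivity)
          have : N' - N ≤ N := by omega
          exact_mod_cast this
      _ ≤ Cs * (Nat.factorial K : ℝ) * N / (Real.log N) ^ K := by
          rw [le_div_iff₀ (by positivity)]
          have h3 : (Real.log N) ^ K ≤ (Nat.factorial K : ℝ) * N := by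
            have h4 := Real.pow_div_factorial_le_exp (Real.log N) hlog.le K
            rw [Real.exp_log hNpos, div_le_iff₀ (by positivity)] at h4
            linarith
          have h5 : (N : ℝ) * (Cs / (N : ℝ) ^ 3) ≤ Cs := by
            have h6 : (N : ℝ) * (Cs / (N : ℝ) ^ 3) = Cs / (N : ℝ) ^ 2 := by field_simp
            rw [h6]
            exact div_le_self hCs0 (one_le_pow₀ (by linarith))
          calc (N : ℝ) * (Cs / (N : ℝ) ^ 3) * (Real.log N) ^ K
              ≤ Cs * ((Nat.factorial K : ℝ) * N) :=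
                mul_le_mul h5 h3 (by positivity) hCs0
            _ = _ := by ring
  have hfac : ‖∑ n ∈ Ioc N N', wt n * er 1 (κ + Q n)‖ ≤ C * N / (Real.log N) ^ K := by
    have e1 : ∑ n ∈ Ioc N N', wt n * er 1 (κ + Q n) = er 1 κ * ∑ n ∈ Ioc N N', wt n * er 1 (Q n) := by
      rw [Finset.mul_sum]
      refine Finset.sum_congr rfl fun n _ => ?_
      rw [er_add]; ring
    rw [e1, norm_mul, norm_er, one_mul]
    exact hmain
  change ‖∑ n ∈ Ioc N N', wt n * er 1 (∑ v ∈ range k, θ v * Real.log ((P v).eval (n : ℝ)))‖ ≤ _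
  calc ‖∑ n ∈ Ioc N N', wt n * er 1 (∑ v ∈ range k, θ v * Real.log ((P v).eval (n : ℝ)))‖
      = ‖(∑ n ∈ Ioc N N', wt n * er 1 (∑ v ∈ range k, θ v * Real.log ((P v).eval (n : ℝ))) -
        ∑ n ∈ Ioc N N', wt n * er 1 (κ + Q n)) + ∑ n ∈ Ioc N N', wt n * er 1 (κ + Q n)‖ := by
        rw [sub_add_cancel]
    _ ≤ _ := norm_add_le _ _
    _ ≤ Cs * (Nat.factorial K : ℝ) * N / (Real.log N) ^ K + C * N / (Real.log N) ^ K :=
        add_le_add hdiff hfac
    _ = (C + Cs * (Nat.factorial K : ℝ)) * N / (Real.log N) ^ K := by ring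

end Pool.Agent.N617.S2
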